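import Pool.Agent.Helper96.Stx.DefsY

/-!
# Anisotropic Strichartz estimates: the final form (row Y5)

From one exponent `p₀` and bounded shifts to all `p ≥ p₀` and all shifts.
-/

set_option autoImplicit false

namespace Stx

open Finset MeasureTheory Pool.Agent.Helper64.AS

lemma FF_cont (r : ℕ) (S : Finset (ℤ × (Fin r → ℤ))) (a : ℤ × (Fin r → ℤ) → ℂ) :
    Continuous (fun z : ℝ × (Fin r → ℝ) => FF r S a z.1 z.2) := by
  unfold FF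
  fun_prop

lemma cube_comp (r : ℕ) : IsCompact (cube r) := by
  unfold cube
  exact isCompact_Icc.prod isCompact_Icc

lemma int_rpow (r : ℕ) (S : Finset (ℤ × (Fin r → ℤ))) (a : ℤ × (Fin r → ℤ) → ℂ) (p : ℝ)
    (hp : 0 ≤ p) : IntegrableOn (fun z : ℝ × (Fin r → ℝ) => ‖FF r S a z.1 z.2‖ ^ p) (cube r) := by
  refine (Continuous.continuousOn ?_).integrableOn_compact (cube_comp r)
  exact (FF_cont r S a).norm.rpow_const (fun _ => Or.inr hp)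

lemma FF_le (r : ℕ) (S : Finset (ℤ × (Fin r → ℤ))) (a : ℤ × (Fin r → ℤ) → ℂ) (t : ℝ)
    (x : Fin r → ℝ) :
    ‖FF r S a t x‖ ≤ Real.sqrt (S.card * ∑ ξ ∈ S, ‖a ξ‖ ^ 2) := by
  apply Real.le_sqrt_of_sq_le
  have h1 : ‖FF r S a t x‖ ≤ ∑ ξ ∈ S, ‖a ξ‖ := by
    unfold FF
    refine (norm_sum_le _ _).trans (Finset.sum_le_sum fun ξ _ => ?_)
    rw [norm_mul, Complex.norm_exp_ofReal_mul_I, mul_one]
  calc ‖FF r S a t x‖ ^ 2 ≤ (∑ ξ ∈ S, ‖a ξ‖) ^ 2 := pow_le_pow_left₀ (norm_nonneg _) h1 2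
    _ ≤ S.card * ∑ ξ ∈ S, ‖a ξ‖ ^ 2 := sq_sum_le_card_mul_sum_sq

lemma card_Icc_le (b N : ℝ) (hN : 1 < N) : ((Finset.Icc ⌈b⌉ ⌊b + N⌋).card : ℝ) ≤ 2 * N := by
  rw [Int.card_Icc]
  have h1 : (⌊b + N⌋ : ℝ) ≤ b + N := Int.floor_le _
  have h2 : b ≤ (⌈b⌉ : ℝ) := Int.le_ceil _
  rcases le_total 0 (⌊b + N⌋ + 1 - ⌈b⌉) with h | h
  · have h3 : (((⌊b + N⌋ + 1 - ⌈b⌉).toNat : ℤ) : ℝ) = ((⌊b + N⌋ + 1 - ⌈b⌉ : ℤ) : ℝ) := by
      rw [Int.toNat_of_nonneg h]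
    have h4 : ((⌊b + N⌋ + 1 - ⌈b⌉).toNat : ℝ) = ((⌊b + N⌋ + 1 - ⌈b⌉ : ℤ) : ℝ) := by
      rw [← h3]; push_cast; rfl
    rw [h4]
    push_cast
    linarith
  · rw [Int.toNat_of_nonpos h]
    simp
    linarith

lemma card_box (r : ℕ) (b : Fin (r + 1) → ℝ) (N : ℝ) (hN : 1 < N) :
    ((box r b N).card : ℝ) ≤ (2 * N) ^ (r + 1) := by
  unfold Pool.Agent.Helper64.AS.box
  rw [Finset.card_product, Fintype.card_piFinset]
  push_cast
  rw [pow_succ, mul_comm]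
  refine mul_le_mul ?_ (card_Icc_le (b 0) N hN) (by positivity) (by positivity)
  calc ∏ l : Fin r, ((Finset.Icc ⌈b l.succ⌉ ⌊b l.succ + N⌋).card : ℝ)
      ≤ ∏ _l : Fin r, (2 * N) := Finset.prod_le_prod (fun _ _ => by positivity)
        (fun l _ => card_Icc_le _ N hN)
    _ = (2 * N) ^ r := by simp

/-- **Y5.** -/
theorem fin_of (r : ℕ)
    (hl : ∀ p : ℝ, 2 ≤ p → ∃ K : ℝ, 0 < K ∧ ∃ C : ℝ, 0 < C ∧
      ∀ (N M : ℝ), 1 < N → 0 ≤ M →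
      (∀ (b : Fin (r + 1) → ℝ) (a : ℤ × (Fin r → ℤ) → ℂ), |b 0| ≤ K * N ^ 2 →
        ∫ z in cube r, ‖FF r (box r b N) a z.1 z.2‖ ^ p ≤
          M * (∑ ξ ∈ box r b N, ‖a ξ‖ ^ 2) ^ (p / 2)) →
      ∀ (b : Fin (r + 1) → ℝ) (a : ℤ × (Fin r → ℤ) → ℂ),
        ∫ z in cube r, ‖FF r (box r b N) a z.1 z.2‖ ^ p ≤
          C * M * (∑ ξ ∈ box r b N, ‖a ξ‖ ^ 2) ^ (p / 2))
    (h : ∃ p : ℝ, 2 + 2 / ((r : ℝ) + 1) < p ∧ p < 2 + 4 / ((r : ℝ) + 1) ∧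
      S_small r p) : S_fin r := by
  obtain ⟨p₀, hp1, hp2, hsm⟩ := h
  have hr : (0 : ℝ) < (r : ℝ) + 1 := by positivity
  have hp0 : 2 ≤ p₀ := by
    have : 0 < 2 / ((r : ℝ) + 1) := by positivity
    linarith
  refine ⟨p₀, hp1, hp2, fun p hp => ?_⟩
  obtain ⟨K, hK, C', hC', hlarge⟩ := hl p₀ hp0
  obtain ⟨C₁, hC₁, hsmall⟩ := hsm K hK
  have hpp : 0 < p := by linarith
  set D : ℝ := C' * C₁ * (2 : ℝ) ^ (((r : ℝ) + 1) * ((p - p₀) / 2)) with hD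
  have hD0 : 0 < D := by positivity
  refine ⟨D ^ (1 / p), by positivity, fun b N a hN => ?_⟩
  have hN0 : 0 < N := by linarith
  set σ : ℝ := ∑ ξ ∈ box r b N, ‖a ξ‖ ^ 2 with hσ
  have hσ0 : 0 ≤ σ := Finset.sum_nonneg fun _ _ => by positivity
  have h1 : ∫ z in cube r, ‖FF r (box r b N) a z.1 z.2‖ ^ p₀ ≤
      C' * (C₁ * N ^ (p₀ * ((r : ℝ) + 1) / 2 - ((r : ℝ) + 2))) * σ ^ (p₀ / 2) := by
    refine hlarge N _ hN (by positivity) (fun b a hb => ?_) b a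
    exact hsmall b N a hN hb
  have hS : ∀ z : ℝ × (Fin r → ℝ), ‖FF r (box r b N) a z.1 z.2‖ ≤
      Real.sqrt ((2 * N) ^ (r + 1) * σ) := by
    intro z
    refine (FF_le r _ a _ _).trans (Real.sqrt_le_sqrt ?_)
    exact mul_le_mul_of_nonneg_right (card_box r b N hN) hσ0
  set S : ℝ := Real.sqrt ((2 * N) ^ (r + 1) * σ) with hSdef
  have h2 : ∫ z in cube r, ‖FF r (box r b N) a z.1 z.2‖ ^ p ≤
      S ^ (p - p₀) * ∫ z in cube r, ‖FF r (box r b N) a z.1 z.2‖ ^ p₀ := by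
    rw [← integral_const_mul]
    refine setIntegral_mono (int_rpow r _ a p hpp.le)
      ((int_rpow r _ a p₀ (by linarith)).const_mul _) (fun z => ?_)
    have h3 : ‖FF r (box r b N) a z.1 z.2‖ ^ p =
        ‖FF r (box r b N) a z.1 z.2‖ ^ (p - p₀) * ‖FF r (box r b N) a z.1 z.2‖ ^ p₀ := by
      rw [← Real.rpow_add_of_nonneg (norm_nonneg _) (by linarith) (by linarith)]
      congr 1
      ring
    simp only []
    rw [h3]
    refine mul_le_mul_of_nonneg_right ?_ (by positivity)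
    exact Real.rpow_le_rpow (norm_nonneg _) (hS z) (by linarith)
  have h4 : S ^ (p - p₀) = (2 : ℝ) ^ (((r : ℝ) + 1) * ((p - p₀) / 2)) *
      N ^ (((r : ℝ) + 1) * ((p - p₀) / 2)) * σ ^ ((p - p₀) / 2) := by
    rw [hSdef, Real.sqrt_eq_rpow, ← Real.rpow_mul (by positivity),
      Real.mul_rpow (by positivity) hσ0, ← Real.rpow_natCast, ← Real.rpow_mul (by positivity),
      Real.mul_rpow (by norm_num) hN0.le]
    push_cast
    have e1 : 1 / 2 * (p - p₀) = (p - p₀) / 2 := by ring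
    rw [e1]
  have h5 : ∫ z in cube r, ‖FF r (box r b N) a z.1 z.2‖ ^ p ≤
      D * N ^ (p * ((r : ℝ) + 1) / 2 - ((r : ℝ) + 2)) * σ ^ (p / 2) := by
    refine h2.trans ?_
    have h6 : S ^ (p - p₀) * ∫ z in cube r, ‖FF r (box r b N) a z.1 z.2‖ ^ p₀ ≤
        S ^ (p - p₀) * (C' * (C₁ * N ^ (p₀ * ((r : ℝ) + 1) / 2 - ((r : ℝ) + 2))) *
          σ ^ (p₀ / 2)) := mul_le_mul_of_nonneg_left h1 (by positivity)
    refine h6.trans (le_of_eq ?_)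
    rw [h4]
    have e1 : N ^ (p * ((r : ℝ) + 1) / 2 - ((r : ℝ) + 2)) =
        N ^ (((r : ℝ) + 1) * ((p - p₀) / 2)) *
          N ^ (p₀ * ((r : ℝ) + 1) / 2 - ((r : ℝ) + 2)) := by
      rw [← Real.rpow_add hN0]
      congr 1
      ring
    have e2 : σ ^ (p / 2) = σ ^ ((p - p₀) / 2) * σ ^ (p₀ / 2) := by
      rw [← Real.rpow_add_of_nonneg hσ0 (by linarith) (by linarith)]
      congr 1
      ring
    rw [e1, e2, hD]
    ring
  have h7 : 0 ≤ ∫ z in cube r, ‖FF r (box r b N) a z.1 z.2‖ ^ p :=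
    integral_nonneg fun z => by positivity
  calc (∫ z in cube r, ‖FF r (box r b N) a z.1 z.2‖ ^ p) ^ (1 / p)
      ≤ (D * N ^ (p * ((r : ℝ) + 1) / 2 - ((r : ℝ) + 2)) * σ ^ (p / 2)) ^ (1 / p) :=
        Real.rpow_le_rpow h7 h5 (by positivity)
    _ = D ^ (1 / p) * N ^ (((r : ℝ) + 1) / 2 - ((r : ℝ) + 2) / p) * Real.sqrt σ := by
        rw [Real.mul_rpow (by positivity) (by positivity), Real.mul_rpow hD0.le (by positivity),
          ← Real.rpow_mul hN0.le, ← Real.rpow_mul hσ0, Real.sqrt_eq_rpow]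
        have e1 : (p * ((r : ℝ) + 1) / 2 - ((r : ℝ) + 2)) * (1 / p) =
            ((r : ℝ) + 1) / 2 - ((r : ℝ) + 2) / p := by
          field_simp
        have e2 : p / 2 * (1 / p) = 1 / 2 := by
          field_simp
        rw [e1, e2]

end Stx
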