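import Pool.Agent.Helper64.AS.Defs

/-!
# Anisotropic Strichartz estimates, one frozen variable: real level-set statements

Definitions `S_crit`, `S_mid'`, `S_small`, `S_fin` of the skeleton `SkelY` of `MP_65a63f_X`.
-/

set_option autoImplicit false

namespace Stx

open Finset MeasureTheory Pool.Agent.Helper64.AS

/-- level set bounds in the cube: critical and middle levels, `|b₀| ≤ K N ^ 2` -/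
def S_crit (r : ℕ) : Prop :=
  ∃ c : ℝ, 0 < c ∧ ∀ K : ℝ, 0 < K → ∃ C : ℝ, 0 < C ∧ ∀ (b : Fin (r + 1) → ℝ) (N lam : ℝ)
    (a : ℤ × (Fin r → ℤ) → ℂ), 1 < N → |b 0| ≤ K * N ^ 2 →
    N ^ (((r : ℝ) + 1) / 4 - c) ≤ lam → ∑ ξ ∈ box r b N, ‖a ξ‖ ^ 2 ≤ 1 →
    (volume {z ∈ cube r | lam < ‖FF r (box r b N) a z.1 z.2‖}).toReal ≤
      C * N ^ (-c) * lam ^ (-2 : ℝ)

def S_mid' (r : ℕ) : Prop :=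
  ∀ ε K : ℝ, 0 < ε → 0 < K → ∃ C : ℝ, 0 < C ∧ ∀ (b : Fin (r + 1) → ℝ) (N lam : ℝ)
    (a : ℤ × (Fin r → ℤ) → ℂ), 1 < N → |b 0| ≤ K * N ^ 2 →
    N ^ (((r : ℝ) + 1) / 4 + ε) ≤ lam → ∑ ξ ∈ box r b N, ‖a ξ‖ ^ 2 ≤ 1 →
    (volume {z ∈ cube r | lam < ‖FF r (box r b N) a z.1 z.2‖}).toReal ≤
      C * N ^ ε * lam ^ (-(2 + 2 / ((r : ℝ) + 1)))

/-- the estimate for shifts `|b₀| ≤ K N ^ 2` -/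
def S_small (r : ℕ) (p : ℝ) : Prop :=
  ∀ K : ℝ, 0 < K → ∃ C : ℝ, 0 < C ∧ ∀ (b : Fin (r + 1) → ℝ) (N : ℝ)
    (a : ℤ × (Fin r → ℤ) → ℂ), 1 < N → |b 0| ≤ K * N ^ 2 →
    ∫ z in cube r, ‖FF r (box r b N) a z.1 z.2‖ ^ p ≤
      C * N ^ (p * ((r : ℝ) + 1) / 2 - ((r : ℝ) + 2)) *
        (∑ ξ ∈ box r b N, ‖a ξ‖ ^ 2) ^ (p / 2)

def S_fin (r : ℕ) : Prop :=
  ∃ p₀ : ℝ, 2 + 2 / ((r : ℝ) + 1) < p₀ ∧ p₀ < 2 + 4 / ((r : ℝ) + 1) ∧ ∀ p : ℝ, p₀ ≤ p →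
    ∃ C : ℝ, 0 < C ∧ ∀ (b : Fin (r + 1) → ℝ) (N : ℝ) (a : ℤ × (Fin r → ℤ) → ℂ), 1 < N →
    (∫ z in cube r, ‖FF r (box r b N) a z.1 z.2‖ ^ p) ^ (1 / p) ≤
      C * N ^ (((r : ℝ) + 1) / 2 - ((r : ℝ) + 2) / p) *
        Real.sqrt (∑ ξ ∈ box r b N, ‖a ξ‖ ^ 2)

end Stx
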